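import Pool.Agent.W2helper74.SOS.Stm2

/-!
# MP_ce7760_an : piece K3 (`Bez`)
-/

open MvPolynomial

namespace Pool.Agent.W2helper15.SOS

open Pool.Agent.W2helper74.SOS

/-- evaluation of a homogeneous polynomial at a multiple -/
theorem hom_eval {n N : ℕ} {p : MvPolynomial (Fin n) ℂ} (hp : p.IsHomogeneous N) (c : ℂ)
    (x : Fin n → ℂ) : eval (fun i => c * x i) p = c ^ N * eval x p := by
  rw [eval_eq', eval_eq', Finset.mul_sum]
  refine Finset.sum_congr rfl fun d hd => ?_
  have h1 : ∑ i, d i = N := by
    have h2 := hp (mem_support_iff.mp hd)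
    rw [← h2, Finsupp.weight_apply, Finsupp.sum_fintype] <;> simp
  simp only [mul_pow, Finset.prod_mul_distrib, Finset.prod_pow_eq_pow_sum, h1]
  ring

open Polynomial in
attribute [local instance] Polynomial.algebra in
/-- if the `P j` have no common nonunit factor then the ideal generated by them contains a nonzero
constant -/
theorem exists_const {R : Type*} [CommRing R] [IsDomain R] [UniqueFactorizationMonoid R]
    (P : Fin 4 → R[X]) (h0 : ∃ j, P j ≠ 0)
    (h : ∀ g : R[X], (∀ j, g ∣ P j) → IsUnit g) :
    ∃ b : R, b ≠ 0 ∧ Polynomial.C b ∈ Ideal.span (Set.range P) := by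
  classical
  let _ : NormalizedGCDMonoid R := Classical.choice inferInstance
  let K := FractionRing R
  have hloc : IsLocalization ((nonZeroDivisors R).map (Polynomial.C : R →+* R[X])) K[X] :=
    Polynomial.isLocalization (nonZeroDivisors R) K
  set J : Ideal R[X] := Ideal.span (Set.range P) with hJ
  have htop : Ideal.map (algebraMap R[X] K[X]) J = ⊤ := by
    obtain ⟨g, hg⟩ : ∃ g, Ideal.map (algebraMap R[X] K[X]) J = Ideal.span {g} :=
      (IsPrincipalIdealRing.principal _).principal
    have hdiv : ∀ j, g ∣ (P j).map (algebraMap R K) := by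
      intro j
      have h1 : (P j).map (algebraMap R K) ∈ Ideal.map (algebraMap R[X] K[X]) J :=
        Ideal.mem_map_of_mem (algebraMap R[X] K[X])
          (Ideal.subset_span (Set.mem_range_self j) : P j ∈ J)
      rwa [hg, Ideal.mem_span_singleton] at h1
    have hg0 : g ≠ 0 := by
      rintro rfl
      obtain ⟨j, hj⟩ := h0
      have h2 := hdiv j
      rw [zero_dvd_iff, Polynomial.map_eq_zero_iff (IsFractionRing.injective R K)] at h2
      exact hj h2
    have hu : IsUnit g := by
      apply isUnit_or_eq_zero_of_isUnit_integerNormalization_primPart (R := R) hg0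
      apply h
      intro j
      obtain ⟨b, hb, hb'⟩ := IsLocalization.integerNormalization_spec (nonZeroDivisors R) g
      set g' := IsLocalization.integerNormalization (nonZeroDivisors R) g with hg'
      apply (isPrimitive_primPart g').dvd_of_fraction_map_dvd_fraction_map (K := K)
      have hb0 : b ≠ 0 := nonZeroDivisors.ne_zero hb
      have h3 : g'.map (algebraMap R K) ∣ (P j).map (algebraMap R K) := by
        rw [hb']
        have h4 : b • g = Polynomial.C (algebraMap R K b) * g := by
          rw [Algebra.smul_def, Polynomial.algebraMap_apply]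
        rw [h4]
        have h5 : IsUnit (Polynomial.C (algebraMap R K b)) := by
          rw [Polynomial.isUnit_C, isUnit_iff_ne_zero]
          intro h6
          exact hb0 ((injective_iff_map_eq_zero (algebraMap R K)).1
            (IsFractionRing.injective _ _) _ h6)
        exact (h5.mul_left_dvd).mpr (hdiv j)
      refine dvd_trans ?_ h3
      exact Polynomial.map_dvd _ (primPart_dvd g')
    rw [hg, Ideal.span_singleton_eq_top]
    exact hu
  by_contra hcon
  push Not at hcon
  refine (IsLocalization.map_algebraMap_ne_top_iff_disjoint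
    ((nonZeroDivisors R).map (Polynomial.C : R →+* R[X])) K[X] J).mpr ?_ htop
  rw [Set.disjoint_left]
  rintro x ⟨b, hb, rfl⟩ hx
  exact hcon b (nonZeroDivisors.ne_zero hb) hx



theorem eval_aeval' {n m : ℕ} (z : Fin m → ℂ) (σ : Fin n → MvPolynomial (Fin m) ℂ)
    (p : MvPolynomial (Fin n) ℂ) : eval z (aeval σ p) = eval (fun i => eval z (σ i)) p := by
  induction p using MvPolynomial.induction_on with
  | C a => simp
  | add p q hp hq => rw [map_add, map_add, map_add, hp, hq]
  | mul_X p i hp => rw [map_mul, map_mul, map_mul, hp, aeval_X, eval_X]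

theorem lin_dvd {n : ℕ} (σ : Fin n → MvPolynomial (Fin n) ℂ) (l : MvPolynomial (Fin n) ℂ)
    (h : ∀ i, l ∣ X i - σ i) (p : MvPolynomial (Fin n) ℂ) : l ∣ p - aeval σ p := by
  rw [← Ideal.mem_span_singleton, ← Ideal.Quotient.eq]
  have h1 : Ideal.Quotient.mkₐ ℂ (Ideal.span {l}) =
      (Ideal.Quotient.mkₐ ℂ (Ideal.span {l})).comp (aeval σ) := by
    apply MvPolynomial.algHom_ext
    intro i
    simp only [AlgHom.comp_apply, aeval_X, Ideal.Quotient.mkₐ_eq_mk]
    rw [Ideal.Quotient.eq, Ideal.mem_span_singleton]
    exact h i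
  exact DFunLike.congr_fun h1 p

/-- a homogeneous polynomial in two variables has finitely many zeros `(1, c)` -/
theorem fin_zeros {d : ℕ} {B : MvPolynomial (Fin 2) ℂ} (hB : B.IsHomogeneous d) (h0 : B ≠ 0) :
    {c : ℂ | eval ![1, c] B = 0}.Finite := by
  set r : Polynomial ℂ := aeval ![1, Polynomial.X] B with hr
  have hev : ∀ c : ℂ, Polynomial.eval c r = eval ![1, c] B := by
    intro c
    have h1 : ∀ q : MvPolynomial (Fin 2) ℂ,
        Polynomial.eval c (aeval (![1, Polynomial.X] : Fin 2 → Polynomial ℂ) q) =
          eval ![1, c] q := by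
      intro q
      induction q using MvPolynomial.induction_on with
      | C a => simp
      | add p q hp hq => rw [map_add, Polynomial.eval_add, map_add, hp, hq]
      | mul_X p i hp =>
        rw [map_mul, Polynomial.eval_mul, map_mul, hp, aeval_X, eval_X]
        congr 1
        fin_cases i <;> simp
    exact h1 B
  have hr0 : r ≠ 0 := by
    intro h
    apply h0
    have h1 : X 0 * B = 0 := by
      apply MvPolynomial.funext
      intro x
      rw [map_mul, eval_X, map_zero]
      by_cases hx : x 0 = 0
      · simp [hx]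
      · have h2 := hom_eval hB (x 0) ![1, x 1 / x 0]
        have h3 : (fun i => x 0 * (![1, x 1 / x 0] : Fin 2 → ℂ) i) = x := by
          funext i
          fin_cases i
          · simp
          · simp [mul_div_cancel₀, hx]
        rw [h3, ← hev, h] at h2
        simp [h2]
    rcases mul_eq_zero.mp h1 with h2 | h2
    · exact absurd h2 (X_ne_zero 0)
    · exact h2
  refine (r.roots.toFinset.finite_toSet).subset ?_
  intro c hc
  simp only [Finset.mem_coe, Multiset.mem_toFinset, Polynomial.mem_roots hr0, Polynomial.IsRoot.def]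
  rw [hev]
  exact hc

theorem bez : Bez := by
  intro N p hp h0 hprime
  have hunit : ∀ g : Pol 3, (∀ j, g ∣ p j) → IsUnit g := by
    intro g hg
    by_contra hnu
    have hg0 : g ≠ 0 := by
      rintro rfl
      obtain ⟨j, hj⟩ := h0
      exact hj (zero_dvd_iff.mp (hg j))
    obtain ⟨π, hπ, hd⟩ := WfDvdMonoid.exists_irreducible_factor hnu hg0
    obtain ⟨j, hj⟩ := hprime π hπ.prime
    exact hj (hd.trans (hg j))
  -- a nonzero polynomial `b` in `z_1, z_2` in the ideal
  obtain ⟨b, hb0, hb⟩ := exists_const (fun j => finSuccEquiv ℂ 2 (p j))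
    (by
      obtain ⟨j, hj⟩ := h0
      exact ⟨j, fun h => hj ((map_eq_zero_iff _ (finSuccEquiv ℂ 2).injective).mp h)⟩)
    (by
      intro g hg
      have h1 : IsUnit ((finSuccEquiv ℂ 2).symm g) := by
        apply hunit
        intro j
        have h2 := map_dvd (finSuccEquiv ℂ 2).symm (hg j)
        rwa [AlgEquiv.symm_apply_apply] at h2
      have h3 := h1.map (finSuccEquiv ℂ 2)
      rwa [AlgEquiv.apply_symm_apply] at h3)
  have hz : ∀ (y : ℂ) (s : Fin 2 → ℂ),
      (∀ j, eval (Fin.cons y s : Fin 3 → ℂ) (p j) = 0) → eval s b = 0 := by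
    intro y s h
    have h1 : Ideal.span (Set.range fun j => finSuccEquiv ℂ 2 (p j)) ≤
        RingHom.ker ((Polynomial.evalRingHom y).comp (Polynomial.mapRingHom (eval s))) := by
      rw [Ideal.span_le]
      rintro _ ⟨j, rfl⟩
      have h2 := h j
      rw [eval_eq_eval_mv_eval'] at h2
      simpa [RingHom.mem_ker] using h2
    have h3 := h1 hb
    rw [RingHom.mem_ker] at h3
    simpa using h3
  -- a homogeneous component
  obtain ⟨d, hd⟩ : ∃ d, homogeneousComponent d b ≠ 0 := by
    by_contra hcon
    push Not at hcon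
    apply hb0
    rw [← sum_homogeneousComponent b]
    exact Finset.sum_eq_zero fun i _ => hcon i
  have hz' : ∀ (y : ℂ) (s : Fin 2 → ℂ),
      (∀ j, eval (Fin.cons y s : Fin 3 → ℂ) (p j) = 0) →
        eval s (homogeneousComponent d b) = 0 := by
    intro y s h
    have h1 : ∀ c : ℂ, eval (fun i => c * s i) b = 0 := by
      intro c
      apply hz (c * y)
      intro j
      have h2 := hom_eval (hp j) c (Fin.cons y s : Fin 3 → ℂ)
      rw [h j, mul_zero] at h2
      rw [← h2]
      congr 2
      funext i
      refine Fin.cases ?_ (fun i => ?_) i <;> simp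
    set q : Polynomial ℂ := ∑ i ∈ Finset.range (b.totalDegree + 1),
      Polynomial.C (eval s (homogeneousComponent i b)) * Polynomial.X ^ i with hq
    have hq0 : q = 0 := by
      apply Polynomial.funext
      intro c
      rw [Polynomial.eval_zero, ← h1 c]
      conv_rhs => rw [← sum_homogeneousComponent b, map_sum]
      rw [hq, Polynomial.eval_finsetSum]
      refine Finset.sum_congr rfl fun i _ => ?_
      rw [hom_eval (homogeneousComponent_isHomogeneous i b), Polynomial.eval_mul,
        Polynomial.eval_C, Polynomial.eval_pow, Polynomial.eval_X, mul_comm]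
    have h3 := congrArg (fun r => Polynomial.coeff r d) hq0
    simp only [hq, Polynomial.finsetSum_coeff, Polynomial.coeff_C_mul_X_pow,
      Polynomial.coeff_zero] at h3
    by_cases hdd : d ∈ Finset.range (b.totalDegree + 1)
    · rw [Finset.sum_ite_eq, if_pos hdd] at h3
      exact h3
    · exfalso
      apply hd
      apply homogeneousComponent_eq_zero
      rw [Finset.mem_range] at hdd
      omega
  set B := homogeneousComponent d b with hB
  have hfin := fin_zeros (homogeneousComponent_isHomogeneous d b) hd
  -- the bad values over a direction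
  have hbad : ∀ s : Fin 2 → ℂ, (∃ j y, eval (Fin.cons y s : Fin 3 → ℂ) (p j) ≠ 0) →
      {y : ℂ | ∀ j, eval (Fin.cons y s : Fin 3 → ℂ) (p j) = 0}.Finite := by
    rintro s ⟨j, y, hy⟩
    rw [eval_eq_eval_mv_eval'] at hy
    set r := Polynomial.map (eval s) (finSuccEquiv ℂ 2 (p j)) with hr
    have hr0 : r ≠ 0 := by
      intro h
      rw [h] at hy
      simp at hy
    refine (r.roots.toFinset.finite_toSet).subset ?_
    intro y' hy'
    simp only [Finset.mem_coe, Multiset.mem_toFinset, Polynomial.mem_roots hr0,
      Polynomial.IsRoot.def]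
    have h1 := hy' j
    rw [eval_eq_eval_mv_eval'] at h1
    exact h1
  -- no direction is completely bad
  have hnu : ∀ l : Pol 3, eval 0 l = 0 → ¬ IsUnit l := by
    intro l hl hu
    have := hu.map (eval (0 : Fin 3 → ℂ))
    rw [hl] at this
    exact not_isUnit_zero this
  have hdir1 : ∀ c : ℂ, ∃ j y, eval (Fin.cons y ![1, c] : Fin 3 → ℂ) (p j) ≠ 0 := by
    intro c
    by_contra hcon
    push Not at hcon
    apply hnu (X 2 - C c * X 1) (by simp)
    apply hunit
    intro j
    have h1 := lin_dvd ![X 0, X 1, C c * X 1] (X 2 - C c * X 1)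
      (by intro i; fin_cases i <;> simp) (p j)
    have h2 : aeval (![X 0, X 1, C c * X 1] : Fin 3 → Pol 3) (p j) = 0 := by
      have h3 : X 1 * aeval ![X 0, X 1, C c * X 1] (p j) = (0 : Pol 3) := by
        apply MvPolynomial.funext
        intro x
        rw [map_mul, eval_X, map_zero, eval_aeval']
        by_cases hx : x 1 = 0
        · simp [hx]
        · have h4 := hom_eval (hp j) (x 1) (Fin.cons (x 0 / x 1) ![1, c] : Fin 3 → ℂ)
          rw [hcon j, mul_zero] at h4
          rw [mul_eq_zero]
          right
          rw [← h4]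
          congr 2
          funext i
          fin_cases i
          · simp [mul_div_cancel₀, hx]
          · simp
          · simp [mul_comm]
      exact (mul_eq_zero.mp h3).resolve_left (X_ne_zero 1)
    rw [h2, sub_zero] at h1
    exact h1
  have hdir2 : ∃ j y, eval (Fin.cons y ![0, 1] : Fin 3 → ℂ) (p j) ≠ 0 := by
    by_contra hcon
    push Not at hcon
    apply hnu (X 1) (by simp)
    apply hunit
    intro j
    have h1 := lin_dvd ![X 0, 0, X 2] (X 1 : Pol 3)
      (by intro i; fin_cases i <;> simp) (p j)
    have h2 : aeval (![X 0, 0, X 2] : Fin 3 → Pol 3) (p j) = 0 := by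
      have h3 : X 2 * aeval ![X 0, 0, X 2] (p j) = (0 : Pol 3) := by
        apply MvPolynomial.funext
        intro x
        rw [map_mul, eval_X, map_zero, eval_aeval']
        by_cases hx : x 2 = 0
        · simp [hx]
        · have h4 := hom_eval (hp j) (x 2) (Fin.cons (x 0 / x 2) ![0, 1] : Fin 3 → ℂ)
          rw [hcon j, mul_zero] at h4
          rw [mul_eq_zero]
          right
          rw [← h4]
          congr 2
          funext i
          fin_cases i
          · simp [mul_div_cancel₀, hx]
          · simp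
          · simp
      exact (mul_eq_zero.mp h3).resolve_left (X_ne_zero 2)
    rw [h2, sub_zero] at h1
    exact h1
  -- choice of the plane
  obtain ⟨β, hβ⟩ := (hbad _ hdir2).infinite_compl.nonempty
  have hfin2 : (⋃ c ∈ {c : ℂ | eval ![1, c] B = 0}, (fun y => y - β * c) ''
      {y : ℂ | ∀ j, eval (Fin.cons y ![1, c] : Fin 3 → ℂ) (p j) = 0}).Finite :=
    hfin.biUnion fun c _ => (hbad _ (hdir1 c)).image _
  obtain ⟨α, hα⟩ := hfin2.infinite_compl.nonempty
  refine ⟨!![α, β; 1, 0; 0, 1], fun x hx => ?_⟩
  by_contra hcon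
  push Not at hcon
  have hT : (!![α, β; 1, 0; 0, 1] : Matrix (Fin 3) (Fin 2) ℂ).mulVec x =
      (Fin.cons (α * x 0 + β * x 1) x : Fin 3 → ℂ) := by
    funext i
    fin_cases i
    · simp [Matrix.mulVec, dotProduct, Fin.sum_univ_two]
    · simp [Matrix.mulVec, dotProduct, Fin.sum_univ_two]
    · simp only [Matrix.mulVec, dotProduct, Fin.sum_univ_two]
      show 0 * x 0 + 1 * x 1 = x 1
      ring
  rw [hT] at hcon
  have hBx := hz' _ _ hcon
  by_cases hx0 : x 0 = 0
  · have hx1 : x 1 ≠ 0 := by
      intro h
      apply hx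
      funext i
      fin_cases i
      · exact hx0
      · exact h
    apply hβ
    intro j
    have h4 := hom_eval (hp j) (x 1)⁻¹ (Fin.cons (α * x 0 + β * x 1) x : Fin 3 → ℂ)
    rw [hcon j, mul_zero] at h4
    refine (congrArg (fun v : Fin 3 → ℂ => eval v (p j)) ?_).trans h4
    funext i
    fin_cases i
    · show β = (x 1)⁻¹ * (α * x 0 + β * x 1)
      rw [hx0]
      field_simp
      ring
    · show (0 : ℂ) = (x 1)⁻¹ * x 0
      rw [hx0, mul_zero]
    · show (1 : ℂ) = (x 1)⁻¹ * x 1
      rw [inv_mul_cancel₀ hx1]
  · apply hα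
    simp only [Set.mem_iUnion, Set.mem_image]
    refine ⟨x 1 / x 0, ?_, α + β * (x 1 / x 0), ?_, by ring⟩
    · have h4 := hom_eval (homogeneousComponent_isHomogeneous d b) (x 0)⁻¹ x
      rw [hBx, mul_zero] at h4
      show eval _ B = 0
      rw [← h4]
      congr 2
      funext i
      fin_cases i
      · show (1 : ℂ) = (x 0)⁻¹ * x 0
        rw [inv_mul_cancel₀ hx0]
      · show x 1 / x 0 = (x 0)⁻¹ * x 1
        ring
    · intro j
      have h4 := hom_eval (hp j) (x 0)⁻¹ (Fin.cons (α * x 0 + β * x 1) x : Fin 3 → ℂ)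
      rw [hcon j, mul_zero] at h4
      rw [← h4]
      congr 2
      funext i
      fin_cases i
      · show α + β * (x 1 / x 0) = (x 0)⁻¹ * (α * x 0 + β * x 1)
        field_simp
      · show (1 : ℂ) = (x 0)⁻¹ * x 0
        rw [inv_mul_cancel₀ hx0]
      · show x 1 / x 0 = (x 0)⁻¹ * x 1
        ring

end Pool.Agent.W2helper15.SOS
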